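import Pool.Agent.TH709.GG.Main
import Pool.Agent.Y365.FS.Sph

set_option autoImplicit false

/-!
# The flag complex inequality with Coxeter edge weights under gluing and inverse contractions

`Cls d α H W` (see `Pool.Agent.TH709.GG.ClsDef`) says that the flag complex of the cliques of `H`
inside `W` belongs to the least class that contains the flag Eulerian complexes of rank at most
three and those of rank four with `f₁ - 5 f₀ + 16 ≥ 0`, and is closed under isomorphism, links,
joins, edge subdivisions, inverse edge contractions, gluing two members after removing from each a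
vertex, along the links of the two vertices, and under passing from the vertex links to the complex
if every facet contains a vertex which is not far from any triangle.

For the members of even rank `2 m` and all systems of orders `N σ` with the properties of the orders
of finite Coxeter groups, the weighted quantity `Ω = (-1)^m ∑ (-1)^|σ| / N σ` is a combination, with
nonnegative coefficients, of the top gamma-numbers of the links.  It lies between the right-angled
quantity `(-1)^m ∑ (-1/2)^|σ| ≥ 0` and the same combination of the gamma-numbers of the complex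
itself.
-/

namespace Pool.Agent.Results.MP_375bfa_co.GluingAndContraction

open Pool.Agent.W497.FS Pool.Agent.TH709.GG Y365.FS

/-- The conditions on the weights `w` of the edges and the orders `N` of the faces: (1) `N ∅ = 1`,
(2) `N {v} = 2`, (3) `N e = 2 w e` with `w e ≥ 2` for each edge `e`, (4) `N (A ∪ B) = N A * N B` if
`A ∪ B` is a face and all edges between `A` and `B` have weight `2`, (5) for each face `T` with at
least three vertices which is connected by edges of weight at least `3`, the sum of the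
`(-1/2)^|T \ U| / N U`, `U ⊆ T`, is zero if `|T|` is odd and has the sign `(-1)^j`, or is zero, if
`|T| = 2 j`. -/
structure Orders {β : Type} [DecidableEq β] (F : Finset (Finset β)) (w : Finset β → ℕ)
    (N : Finset β → ℚ) : Prop where
  two_le : ∀ e ∈ F, e.card = 2 → 2 ≤ w e
  empty : N ∅ = 1
  vertex : ∀ v, {v} ∈ F → N {v} = 2
  edge : ∀ e ∈ F, e.card = 2 → N e = 2 * w e
  mul : ∀ A B : Finset β, Disjoint A B → A ∪ B ∈ F → (∀ a ∈ A, ∀ b ∈ B, w {a, b} = 2) →
    N (A ∪ B) = N A * N B
  sign : ∀ T ∈ F, 3 ≤ T.card →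
    (∀ A ⊆ T, A.Nonempty → A ≠ T → ∃ a ∈ A, ∃ b ∈ T, b ∉ A ∧ w {a, b} ≠ 2) →
    (Odd T.card → ∑ U ∈ T.powerset, (-1 / 2) ^ (T.card - U.card) / N U = 0) ∧
    ∀ j, T.card = 2 * j → 0 ≤ (-1) ^ j * ∑ U ∈ T.powerset, (-1 / 2) ^ (T.card - U.card) / N U

/-- the coefficient of the link of `T` -/
def coef {β : Type} [DecidableEq β] (N : Finset β → ℚ) (T : Finset β) : ℚ :=
  (-1) ^ (T.card / 2) * ∑ U ∈ T.powerset, (-1 / 2) ^ (T.card - U.card) / N U

theorem Orders.good {β : Type} [DecidableEq β] {F : Finset (Finset β)}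
    (hF : ∀ T ∈ F, ∀ U ⊆ T, U ∈ F) {w : Finset β → ℕ} {N : Finset β → ℚ} (h : Orders F w N) :
    GoodOrders F N :=
  goodOrders_of hF w h.two_le N h.empty h.vertex h.edge h.mul h.sign

theorem lam_gam {α : Type} [DecidableEq α] {H : SimpleGraph α} {W : Finset α} {l : ℕ}
    (hle : ∀ σ ∈ cl H W, σ.card ≤ 2 * l) {g : ℕ → ℤ} (hg : IsGam H (2 * l) W g) :
    (-1) ^ l * lam H W = (g l : ℚ) / 4 ^ l := by
  have h1 := congrArg (Polynomial.eval (-1)) hg.2
  rw [Polynomial.eval_finsetSum, Polynomial.eval_finsetSum] at h1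
  have h2 : ∑ i ∈ Finset.range (2 * l / 2 + 1), Polynomial.eval (-1)
      (Polynomial.C (g i) * Polynomial.X ^ i * (1 + Polynomial.X) ^ (2 * l - 2 * i)) =
      g l * (-1) ^ l := by
    rw [Finset.sum_eq_single l]
    · simp
    · intro i hi hil
      rw [Finset.mem_range] at hi
      have h3 : 2 * l - 2 * i ≠ 0 := by omega
      simp [h3]
    · intro h
      exact absurd (Finset.mem_range.2 (by omega)) h
  rw [h2] at h1
  have h4 : (4 : ℚ) ^ l * lam H W = ((∑ i ∈ Finset.range (2 * l + 1), Polynomial.eval (-1)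
      (Polynomial.C ((((cl H W).filter (fun σ => σ.card = i)).card : ℕ) : ℤ) *
        Polynomial.X ^ i * (1 - Polynomial.X) ^ (2 * l - i)) : ℤ) : ℚ) := by
    have h5 : lam H W = ∑ i ∈ Finset.range (2 * l + 1),
        (((cl H W).filter (fun σ => σ.card = i)).card : ℚ) * (-1 / 2) ^ i := by
      unfold lam fe
      rw [← Finset.sum_fiberwise_of_maps_to (g := Finset.card) (t := Finset.range (2 * l + 1))
        (fun σ hσ => Finset.mem_range.2 (by have := hle σ hσ; omega))]
      refine Finset.sum_congr rfl fun i _ => ?_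
      rw [Finset.sum_congr rfl (g := fun _ => (-1 / 2 : ℚ) ^ i)
        (fun σ hσ => by rw [(Finset.mem_filter.1 hσ).2]), Finset.sum_const, nsmul_eq_mul]
    rw [h5, Finset.mul_sum, Int.cast_sum]
    refine Finset.sum_congr rfl fun i hi => ?_
    rw [Finset.mem_range] at hi
    simp only [Polynomial.eval_mul, Polynomial.eval_pow, Polynomial.eval_C, Polynomial.eval_X,
      Polynomial.eval_sub, Polynomial.eval_one]
    push_cast
    obtain ⟨r, hr⟩ : ∃ r, 2 * l = i + r := ⟨2 * l - i, by omega⟩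
    have h6 : (4 : ℚ) ^ l = 2 ^ i * 2 ^ r := by
      rw [← pow_add, ← hr, pow_mul]; norm_num
    have h7 : 2 * l - i = r := by omega
    rw [h6, h7]
    have h8 : (2 : ℚ) ^ i * (-1 / 2) ^ i = (-1) ^ i := by
      rw [← mul_pow]; norm_num
    linear_combination (2 : ℚ) ^ r * ((((cl H W).filter (fun σ => σ.card = i)).card : ℕ) : ℚ) * h8
  rw [h1] at h4
  push_cast at h4
  rw [eq_div_iff (by positivity)]
  have h5 : ((-1 : ℚ) ^ l) * (-1) ^ l = 1 := by rw [← mul_pow]; norm_num
  linear_combination (-1 : ℚ) ^ l * h4 + (g l : ℚ) * h5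

section main

variable {m : ℕ} {α : Type} [DecidableEq α] {H : SimpleGraph α} {W : Finset α}

theorem key (hC : Cls (2 * m) α H W) {N : Finset α → ℚ} (hN : GoodOrders (cl H W) N)
    {g : Finset α → ℕ → ℤ} (hg : ∀ σ ∈ cl H W, IsGam H (2 * m - σ.card) (lkF H W σ) (g σ)) :
    (-1) ^ m * ∑ σ ∈ cl H W, (-1) ^ σ.card / N σ =
      ∑ T ∈ (cl H W).filter (fun T => Even T.card),
        coef N T * ((g T (m - T.card / 2) : ℚ) / 4 ^ (m - T.card / 2)) := by
  have htot := cls_total hC
  rw [weighted_eq, Finset.mul_sum, Finset.sum_filter]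
  refine Finset.sum_congr rfl fun T hT => ?_
  split_ifs with he
  · obtain ⟨j, hj⟩ := he
    have hTm := (htot.1 T hT).1
    obtain ⟨l, hl⟩ : ∃ l, m = j + l := ⟨m - j, by omega⟩
    have h1 : 2 * m - T.card = 2 * l := by omega
    have hg1 := hg T hT
    rw [h1] at hg1
    have hCl : Cls (2 * l) α H (lkF H W T) := by
      have h2 : 2 * m = 2 * l + T.card := by omega
      rw [h2] at hC
      exact hC.link hT
    have h3 := lam_gam (fun σ hσ => ((cls_total hCl).1 σ hσ).1) hg1
    have h4 : T.card / 2 = j := by omega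
    have h5 : m - T.card / 2 = l := by omega
    rw [h5, ← h3, coef, h4]
    have h6 : (-1 : ℚ) ^ T.card = 1 := by rw [hj]; exact Even.neg_one_pow ⟨j, rfl⟩
    rw [h6, hl, pow_add]
    unfold bN
    ring
  · rw [(hN T hT).1 (Nat.not_even_iff_odd.1 he)]
    simp

theorem coef_nonneg {N : Finset α → ℚ} (hN : GoodOrders (cl H W) N) {T : Finset α}
    (hT : T ∈ cl H W) (he : Even T.card) : 0 ≤ coef N T := by
  obtain ⟨j, hj⟩ := he
  have h4 : T.card / 2 = j := by omega
  have h1 := (hN T hT).2 j (by omega)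
  rw [coef, h4]
  exact h1

theorem gam_bounds (hC : Cls (2 * m) α H W)
    {g : Finset α → ℕ → ℤ} (hg : ∀ σ ∈ cl H W, IsGam H (2 * m - σ.card) (lkF H W σ) (g σ)) :
    ∀ T ∈ cl H W, ∀ i, 0 ≤ g T i ∧ g T i ≤ g ∅ i := by
  have htot := (cls_total hC).2 g hg
  have hsub : ∀ T ∈ cl H W, ∀ U ⊆ T, U ∈ cl H W := fun T hT U hU => cl_of_subset hT hU
  have h0 : ∀ T ∈ cl H W, ∀ i, 0 ≤ g T i := by
    intro T hT i
    have := htot T ∅ (Finset.disjoint_empty_right _) (by simpa using hT) i
    simpa using this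
  have h1 : ∀ T : Finset α, T ∈ cl H W → ∀ i, g T i ≤ g ∅ i := by
    intro T
    induction T using Finset.induction_on with
    | empty => intro _ i; exact le_rfl
    | insert v T hv ih =>
      intro hT i
      have hT' : T ∈ cl H W := hsub _ hT _ (Finset.subset_insert _ _)
      refine le_trans ?_ (ih hT' i)
      have h2 := htot T {v} (Finset.disjoint_singleton_right.2 hv) (by
        rwa [Finset.union_comm, ← Finset.insert_eq]) i
      have h3 : ({v} : Finset α).powerset = {∅, {v}} := by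
        ext A
        simp [Finset.subset_singleton_iff]
      rw [h3, Finset.sum_pair (Finset.singleton_ne_empty v).symm] at h2
      simp only [Finset.card_empty, pow_zero, Finset.union_empty, one_mul, Finset.card_singleton,
        pow_one] at h2
      rw [Finset.union_comm T {v}, ← Finset.insert_eq] at h2
      linarith
  exact fun T hT i => ⟨h0 T hT i, h1 T hT i⟩

theorem main (hC : Cls (2 * m) α H W) {N : Finset α → ℚ} (hN : GoodOrders (cl H W) N)
    (h0 : N ∅ = 1) {g : Finset α → ℕ → ℤ}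
    (hg : ∀ σ ∈ cl H W, IsGam H (2 * m - σ.card) (lkF H W σ) (g σ)) :
    0 ≤ (-1) ^ m * ∑ σ ∈ cl H W, (-1 / 2 : ℚ) ^ σ.card ∧
    (-1) ^ m * ∑ σ ∈ cl H W, (-1 / 2 : ℚ) ^ σ.card ≤
      (-1) ^ m * ∑ σ ∈ cl H W, (-1) ^ σ.card / N σ ∧
    (-1) ^ m * ∑ σ ∈ cl H W, (-1) ^ σ.card / N σ ≤
      ∑ T ∈ (cl H W).filter (fun T => Even T.card),
        coef N T * ((g ∅ (m - T.card / 2) : ℚ) / 4 ^ (m - T.card / 2)) := by
  have hb := gam_bounds hC hg
  have hempty : (∅ : Finset α) ∈ cl H W := by
    unfold cl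
    simp
  have hra : (-1) ^ m * ∑ σ ∈ cl H W, (-1 / 2 : ℚ) ^ σ.card = (g ∅ m : ℚ) / 4 ^ m := by
    have h1 := lam_gam (H := H) (W := W) (l := m) (fun σ hσ => ((cls_total hC).1 σ hσ).1)
      (g := g ∅) (by
        have h2 := hg ∅ hempty
        have h3 : lkF H W ∅ = W := by
          unfold lkF
          simp
        rw [h3] at h2
        simpa using h2)
    rw [← h1]
    rfl
  rw [hra, key hC hN hg]
  refine ⟨?_, ?_, ?_⟩
  · have := (hb ∅ hempty m).1
    positivity
  · have h1 : coef N ∅ * ((g ∅ (m - (∅ : Finset α).card / 2) : ℚ) /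
        4 ^ (m - (∅ : Finset α).card / 2)) = (g ∅ m : ℚ) / 4 ^ m := by
      simp [coef, h0]
    rw [← h1]
    refine Finset.single_le_sum (f := fun T => coef N T * ((g T (m - T.card / 2) : ℚ) /
        4 ^ (m - T.card / 2))) (fun T hT => ?_) (Finset.mem_filter.2 ⟨hempty, by simp⟩)
    obtain ⟨hT1, hT2⟩ := Finset.mem_filter.1 hT
    have h2 := coef_nonneg hN hT1 hT2
    have h3 := (hb T hT1 (m - T.card / 2)).1
    positivity
  · refine Finset.sum_le_sum fun T hT => ?_
    obtain ⟨hT1, hT2⟩ := Finset.mem_filter.1 hT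
    refine mul_le_mul_of_nonneg_left ?_ (coef_nonneg hN hT1 hT2)
    have h3 := (hb T hT1 (m - T.card / 2)).2
    gcongr

end main

theorem result :
    -- all members of the class
    (∀ (m : ℕ) (α : Type) [DecidableEq α] (H : SimpleGraph α) (W : Finset α),
      Cls (2 * m) α H W → ∀ (w : Finset α → ℕ) (N : Finset α → ℚ), Orders (cl H W) w N →
      ∀ g : Finset α → ℕ → ℤ, (∀ σ ∈ cl H W, IsGam H (2 * m - σ.card) (lkF H W σ) (g σ)) →
        (-1) ^ m * ∑ σ ∈ cl H W, (-1) ^ σ.card / N σ =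
          ∑ T ∈ (cl H W).filter (fun T => Even T.card),
            coef N T * ((g T (m - T.card / 2) : ℚ) / 4 ^ (m - T.card / 2)) ∧
        (∀ T ∈ cl H W, Even T.card → 0 ≤ coef N T) ∧
        (∀ T ∈ cl H W, ∀ i, 0 ≤ g T i ∧ g T i ≤ g ∅ i) ∧
        0 ≤ (-1) ^ m * ∑ σ ∈ cl H W, (-1 / 2 : ℚ) ^ σ.card ∧
        (-1) ^ m * ∑ σ ∈ cl H W, (-1 / 2 : ℚ) ^ σ.card ≤
          (-1) ^ m * ∑ σ ∈ cl H W, (-1) ^ σ.card / N σ ∧
        (-1) ^ m * ∑ σ ∈ cl H W, (-1) ^ σ.card / N σ ≤
          ∑ T ∈ (cl H W).filter (fun T => Even T.card),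
            coef N T * ((g ∅ (m - T.card / 2) : ℚ) / 4 ^ (m - T.card / 2))) ∧
    -- flag homology spheres in the class
    (∀ (k : Type) [Field k] (n m : ℕ) (S : Finset (Finset (Fin n))),
      IsFlagSphere k (2 * m) S → Cls (2 * m) (Fin n) (skel S) (vert S) →
      ∀ (w : Finset (Fin n) → ℕ) (N : Finset (Fin n) → ℚ), Orders S w N →
        0 ≤ (-1) ^ m * ∑ σ ∈ S, (-1 / 2 : ℚ) ^ σ.card ∧
        (-1) ^ m * ∑ σ ∈ S, (-1 / 2 : ℚ) ^ σ.card ≤
          (-1) ^ m * ∑ σ ∈ S, (-1) ^ σ.card / N σ) := by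
  refine ⟨?_, ?_⟩
  · intro m α _ H W hC w N hw g hg
    have hN := hw.good (fun T hT U hU => cl_of_subset hT hU)
    obtain ⟨h1, h2, h3⟩ := main hC hN hw.empty hg
    exact ⟨key hC hN hg, fun T hT he => coef_nonneg hN hT he, gam_bounds hC hg, h1, h2, h3⟩
  · intro k _ n m S hS hC w N hw
    have hcl := hS.cl_eq
    rw [← hcl] at hw
    have hN := hw.good (fun T hT U hU => cl_of_subset hT hU)
    have hex := (cls_total hC).1
    choose! g hg using fun σ hσ => (hex σ hσ).2
    obtain ⟨h1, h2, -⟩ := main hC hN hw.empty hg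
    rw [hcl] at h1 h2
    exact ⟨h1, h2⟩

end Pool.Agent.Results.MP_375bfa_co.GluingAndContraction
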