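import Pool.Agent.Q116.GD.CD

/-!
# The flag complex inequality with Coxeter edge weights follows from a weak right-angled form

The flag complexes considered here are homology spheres over every field.  Two constructions
amplify a violation of the Charney-Davis inequality `(-1)^m ω(S) ≥ 0`.

* Doubling: remove a vertex `v` of a flag homology `(2m-1)`-sphere `S` and glue two copies of the
  rest along the link of `v`.  The link has even dimension, so that `ω` of the double is `2 ω(S)`,
  while the number of faces is at most `2 |S|`.  Hence in each dimension a lower bound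
  `(-1)^m ω(S) ≥ - o(|S|)` implies `(-1)^m ω(S) ≥ 0`.
* Joins with long cycles: `ω(S * C_N) = ω(S) (1 - N/4)`, so that a violation of rank `2 i` gives
  spheres of rank `2 m`, for every `m > i`, with `(-1)^m ω ≤ - c f_0^(m-i)`, `c > 0`, and
  `|S| = O(f_0^(m-i))`.  Hence, if one looks at all dimensions, it suffices to improve, for
  infinitely many `m`, the order `f_0^m` of `|S|` by an unbounded power of `f_0`.

The weighted quantity is a combination, with nonnegative coefficients, of the right-angled quantities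
of the links (starting library), so that the weak right-angled forms are equivalent to the weighted
inequality.
-/

set_option autoImplicit false

namespace Pool.Agent.Results.MP_375bfa_co.WeakFormSuffices

open Pool.Agent.W497.FS Finset Q116.GD

/-- `S` is a flag homology sphere of dimension `d - 1` over every field (for a flag triangulation it
is the same to say that the realization is a generalized homology `(d-1)`-sphere) -/
def IsGHS {n : ℕ} (d : ℕ) (S : Finset (Finset (Fin n))) : Prop :=
  ∀ (k : Type) [Field k], IsFlagSphere k d S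

/-- The conditions on the weights `w` of the edges and the orders `N` of the faces: (1) `N ∅ = 1`,
(2) `N {v} = 2`, (3) `N e = 2 w e` with `w e ≥ 2` for each edge `e`, (4) `N (A ∪ B) = N A * N B` if
`A ∪ B` is a face and all edges between `A` and `B` have weight `2`, (5) for each face `T` with at
least three vertices which is connected by edges of weight at least `3`, the sum of the
`(-1/2)^|T \ U| / N U`, `U ⊆ T`, is zero if `|T|` is odd and has the sign `(-1)^j`, or is zero, if
`|T| = 2 j`. -/
structure Orders {n : ℕ} (S : Finset (Finset (Fin n))) (w : Finset (Fin n) → ℕ)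
    (N : Finset (Fin n) → ℚ) : Prop where
  two_le : ∀ e ∈ S, e.card = 2 → 2 ≤ w e
  empty : N ∅ = 1
  vertex : ∀ v, {v} ∈ S → N {v} = 2
  edge : ∀ e ∈ S, e.card = 2 → N e = 2 * w e
  mul : ∀ A B : Finset (Fin n), Disjoint A B → A ∪ B ∈ S → (∀ a ∈ A, ∀ b ∈ B, w {a, b} = 2) →
    N (A ∪ B) = N A * N B
  sign : ∀ T ∈ S, 3 ≤ T.card →
    (∀ A ⊆ T, A.Nonempty → A ≠ T → ∃ a ∈ A, ∃ b ∈ T, b ∉ A ∧ w {a, b} ≠ 2) →
    (Odd T.card → ∑ U ∈ T.powerset, (-1 / 2) ^ (T.card - U.card) / N U = 0) ∧
    ∀ j, T.card = 2 * j → 0 ≤ (-1) ^ j * ∑ U ∈ T.powerset, (-1 / 2) ^ (T.card - U.card) / N U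

/-- the weighted inequality for all spheres of dimension `2 m - 1` -/
def Weighted (m : ℕ) : Prop :=
  ∀ (n : ℕ) (S : Finset (Finset (Fin n))), IsGHS (2 * m) S →
    ∀ (w : Finset (Fin n) → ℕ) (N : Finset (Fin n) → ℚ), Orders S w N →
      0 ≤ (-1) ^ m * ∑ σ ∈ S, (-1) ^ σ.card / N σ

/-- the right-angled inequality for all spheres of dimension `2 m - 1` -/
def RightAngled (m : ℕ) : Prop :=
  ∀ (n : ℕ) (S : Finset (Finset (Fin n))), IsGHS (2 * m) S → 0 ≤ (-1) ^ m * omega S

/-- the right-angled inequality with an error `ε (|S| + c f_0 ^ e)`, for every `ε > 0` and all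
spheres of dimension `2 m - 1` with sufficiently many vertices -/
def Weak (m : ℕ) (c : ℚ) (e : ℕ) : Prop :=
  ∀ ε : ℚ, 0 < ε → ∃ N : ℕ, ∀ (n : ℕ) (S : Finset (Finset (Fin n))), IsGHS (2 * m) S →
    N ≤ numVert S → -ε * ((S.card : ℚ) + c * (numVert S : ℚ) ^ e) ≤ (-1) ^ m * omega S

/-- all fields -/
abbrev AllFields : (Σ' k : Type, Field k) → Type := fun p => p.1

instance (p : Σ' k : Type, Field k) : Field (AllFields p) := p.2

instance : Nonempty (Σ' k : Type, Field k) := ⟨⟨ℚ, inferInstance⟩⟩

theorem fam {n d : ℕ} {S : Finset (Finset (Fin n))} : Fam AllFields d S ↔ IsGHS d S :=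
  ⟨fun h k inst => h ⟨k, inst⟩, fun h p => @h p.1 p.2⟩

theorem omega_eq' {n m : ℕ} {S : Finset (Finset (Fin n))} (hS : IsGHS (2 * m) S) {a : ℕ → ℤ}
    (ha : Exp (2 * m) (PS S) a) : (-1) ^ m * omega S = (a m : ℚ) / 4 ^ m := by
  rw [(hS ℚ).omega_eq]
  exact lam_of_exp ha

theorem rightAngled_iff {m : ℕ} : RightAngled m ↔
    ∀ (n : ℕ) (S : Finset (Finset (Fin n))), IsGHS (2 * m) S → ∀ a, Exp (2 * m) (PS S) a →
      0 ≤ a m := by
  constructor
  · intro h n S hS a ha
    have h1 := h n S hS
    rw [omega_eq' hS ha] at h1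
    have h2 : (0 : ℚ) ≤ a m := by
      by_contra hcon
      push Not at hcon
      have := div_neg_of_neg_of_pos hcon (by positivity : (0 : ℚ) < 4 ^ m)
      linarith
    exact_mod_cast h2
  · intro h n S hS
    obtain ⟨a, ha⟩ := exists_exp (hS ℚ)
    rw [omega_eq' hS ha]
    have h1 : (0 : ℚ) ≤ a m := by exact_mod_cast h n S hS a ha
    positivity

/-- the weak form in terms of gamma-numbers -/
theorem weak_iff {m : ℕ} {c : ℚ} (hc : 0 ≤ c) {e : ℕ} : Weak m c e ↔
    ∀ ε : ℝ, 0 < ε → ∃ N : ℕ, ∀ (n : ℕ) (S : Finset (Finset (Fin n))), IsGHS (2 * m) S →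
      N ≤ numVert S → ∀ a, Exp (2 * m) (PS S) a →
        -ε * ((S.card : ℝ) + c * (numVert S : ℝ) ^ e) ≤ a m := by
  constructor
  · intro h ε hε
    obtain ⟨q, hq0, hq⟩ := exists_rat_btwn (show (0 : ℝ) < ε / 4 ^ m by positivity)
    have hq0' : 0 < q := by exact_mod_cast hq0
    obtain ⟨N, hN⟩ := h q hq0'
    refine ⟨N, fun n S hS hNS a ha => ?_⟩
    have h1 := hN n S hS hNS
    rw [omega_eq' hS ha] at h1
    have h2 : -(q : ℝ) * ((S.card : ℝ) + c * (numVert S : ℝ) ^ e) ≤ (a m : ℝ) / 4 ^ m := by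
      exact_mod_cast h1
    have hc' : (0 : ℝ) ≤ c := by exact_mod_cast hc
    have h3 : (0 : ℝ) ≤ (S.card : ℝ) + c * (numVert S : ℝ) ^ e := by positivity
    have h4 : (0 : ℝ) < 4 ^ m := by positivity
    rw [le_div_iff₀ h4] at h2
    rw [lt_div_iff₀ h4] at hq
    nlinarith
  · intro h ε hε
    have hε' : (0 : ℝ) < ε * 4 ^ m := by
      have : (0 : ℝ) < ε := by exact_mod_cast hε
      positivity
    obtain ⟨N, hN⟩ := h (ε * 4 ^ m) hε'
    refine ⟨N, fun n S hS hNS => ?_⟩
    obtain ⟨a, ha⟩ := exists_exp (hS ℚ)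
    have h1 := hN n S hS hNS a ha
    rw [omega_eq' hS ha, le_div_iff₀ (by positivity)]
    have h2 : -(ε * 4 ^ m) * ((S.card : ℚ) + c * (numVert S : ℚ) ^ e) ≤ a m := by
      exact_mod_cast h1
    linarith

theorem asymL_of_weak {m : ℕ} (h : Weak m 0 0) :
    AsymL AllFields (fun j => if j = m then 1 else 0) (2 * m) := by
  intro ε hε
  obtain ⟨N, hN⟩ := (weak_iff le_rfl).1 h ε hε
  refine ⟨N, fun n S hS hNS a ha => ?_⟩
  have h1 := hN n S (fam.1 hS) hNS a ha
  rw [lin_single (by omega)]
  simpa using h1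

theorem rightAngled_of_weak {m : ℕ} (h : Weak m 0 0) : RightAngled m :=
  rightAngled_iff.2 fun _ _ hS _ ha => cd_of_weak (asymL_of_weak h) (fam.2 hS) ha

theorem weak_of_rightAngled {m : ℕ} {c : ℚ} (hc : 0 ≤ c) {e : ℕ} (h : RightAngled m) :
    Weak m c e := by
  intro ε hε
  refine ⟨0, fun n S hS _ => ?_⟩
  have h1 := h n S hS
  have h2 : 0 ≤ ε * ((S.card : ℚ) + c * (numVert S : ℚ) ^ e) := by positivity
  linarith

theorem subset_closed {n d : ℕ} {S : Finset (Finset (Fin n))} (hS : IsGHS d S) :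
    ∀ T ∈ S, ∀ U ⊆ T, U ∈ S := by
  obtain ⟨r, hr⟩ := hS ℚ
  exact fun F hF G hG => hr.1 F hF G hG

/-- the right-angled orders -/
theorem orders_two {n : ℕ} (S : Finset (Finset (Fin n))) :
    Orders S (fun _ => 2) (fun σ => 2 ^ σ.card) := by
  refine ⟨fun _ _ _ => le_rfl, by simp, fun v _ => by simp, fun e _ he => ?_,
    fun A B hAB _ _ => ?_, fun T _ hT hc => ?_⟩
  · rw [he]; norm_num
  · rw [card_union_of_disjoint hAB, pow_add]
  · exfalso
    obtain ⟨t, ht⟩ := card_pos.1 (show 0 < T.card by omega)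
    obtain ⟨a, -, b, -, -, hab⟩ := hc {t} (singleton_subset_iff.2 ht) (singleton_nonempty t)
      (fun h => by rw [← h, card_singleton] at hT; omega)
    exact hab rfl

theorem rightAngled_of_weighted {m : ℕ} (h : Weighted m) : RightAngled m := by
  intro n S hS
  have h1 := h n S hS _ _ (orders_two S)
  rw [omega]
  exact h1

theorem weighted_of_rightAngled {m : ℕ} (h : ∀ l ≤ m, RightAngled l) : Weighted m := by
  intro n S hS w N hN
  refine weighted_of (fam.2 hS) (fun l hl n S hS => h l hl n S (fam.1 hS)) ?_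
  exact Y365.FS.goodOrders_of (subset_closed hS) w hN.two_le N hN.empty hN.vertex hN.edge hN.mul
    hN.sign

/-- **The weak right-angled form suffices.**
(1) In each dimension `2 m - 1` the right-angled inequality is equivalent to
`(-1)^m ω(S) ≥ -ε |S|` for all `ε > 0` and all spheres with sufficiently many vertices.
(2) Up to each dimension the weighted inequality is equivalent to this weak right-angled form.
(3) The weighted inequality holds in all dimensions if and only if for every `K` there is an `m > K`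
such that `(-1)^m ω(S) ≥ -ε (|S| + f_0^(m-K))` for all `ε > 0` and all spheres of dimension
`2 m - 1` with sufficiently many vertices. -/
theorem result :
    (∀ m, RightAngled m ↔ Weak m 0 0) ∧
    (∀ M, (∀ m ≤ M, Weighted m) ↔ (∀ m ≤ M, Weak m 0 0)) ∧
    ((∀ m, Weighted m) ↔ (∀ K, ∃ m, K < m ∧ Weak m 1 (m - K))) := by
  refine ⟨fun m => ⟨weak_of_rightAngled le_rfl, rightAngled_of_weak⟩, fun M => ⟨?_, ?_⟩, ⟨?_, ?_⟩⟩
  · exact fun h m hm => weak_of_rightAngled le_rfl (rightAngled_of_weighted (h m hm))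
  · exact fun h m hm => weighted_of_rightAngled fun l hl => rightAngled_of_weak (h l (by omega))
  · exact fun h K => ⟨K + 1, by omega,
      weak_of_rightAngled zero_le_one (rightAngled_of_weighted (h (K + 1)))⟩
  · intro h
    have h1 := (criterion_two (F := AllFields) 0).2 (fun K => by
      obtain ⟨m, hm, h2⟩ := h K
      refine ⟨m, hm, fun ε hε => ?_⟩
      obtain ⟨N, hN⟩ := (weak_iff zero_le_one).1 h2 ε hε
      refine ⟨N, fun n S hS hNS γ hγ => ?_⟩
      rw [Nat.add_zero] at hS hγ
      have hSG := fam.1 hS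
      obtain ⟨a, ha⟩ := exists_exp (hSG ℚ)
      have h3 := hN n S hSG hNS a ha
      rw [gamma_eq_exp (hSG ℚ) ha hγ m (by omega)]
      simpa using h3)
    intro m
    refine weighted_of_rightAngled fun l _ => rightAngled_iff.2 fun n S hS a ha => ?_
    refine h1 l n S ?_ a ?_
    · rw [Nat.add_zero]
      exact fam.2 hS
    · rw [Nat.add_zero]
      exact isGamma_of_exp (hS ℚ) ha

end Pool.Agent.Results.MP_375bfa_co.WeakFormSuffices
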