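import Pool.Agent.Q169.SP.WeightedJoins

/-!
# Lower bounds in the flag complex inequality with Coxeter edge weights

For flag homology spheres of dimension `2 m - 1` with good simplices, and for all systems of orders `O σ` with the
properties of the orders of finite Coxeter groups, the joins which occur as full subcomplexes in the links of the
simplices with an even number of vertices give a lower bound for `(-1)^m ∑ (-1)^|σ| / O σ`.
-/

set_option autoImplicit false

namespace Pool.Agent.Results.MP_375bfa_co.WeightedJoins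

open Finset Pool.Agent.W907.SG Pool.Agent.W907.SM Pool.Agent.TH652.Above Pool.Agent.Q169.RC
open Pool.Agent.Q169.SP (flagComplex IsHomologySphere Orders mem_flag)
open Pool.Agent.Q169.SP.Wj (coef IsJoin prodChi sum_le coef_edge)

/-- Let the flag complex of `G` be a homology sphere of dimension `2 m - 1` over the reals (`HSph (2 m) G`) and modulo
`2`, with weights `w` of the edges and orders `O`.
(1) If all simplices are good, and `C` is a set of simplices `T` with an even number of vertices such that a full
subcomplex of the link of `T` is the join of `m - |T| / 2` complexes `A_(T,j)` which are not simplices (the empty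
complex, if `|T| = 2 m`), then
`(-1)^m ∑ (-1)^|σ| / O σ` is at least the sum of the numbers `coef O T * ∏_j (-χ(A_(T,j)))`, `T ∈ C`.
(2) The coefficients are nonnegative; `coef O ∅ = 1`, and `coef O e = (w e - 2) / (4 w e)` for each edge `e`. -/
theorem result (m N : ℕ) (G : SimpleGraph (Fin N)) (hR : HSph (2 * m) G)
    (h2 : IsHomologySphere (flagComplex G) (2 * m)) (w : Finset (Fin N) → ℕ) (O : Finset (Fin N) → ℚ)
    (hO : Orders (flagComplex G) w O) :
    ((∀ T : Finset (Fin N), G.IsClique (T : Set (Fin N)) → Good (2 * m) G T) →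
      ∀ (C : Finset (Finset (Fin N))) (A : Finset (Fin N) → Set (Fin N))
        (p : Finset (Fin N) → Fin N → ℕ),
      (∀ T ∈ C, T ∈ flagComplex G ∧ Even T.card ∧ A T ⊆ {v | ∀ t ∈ T, G.Adj v t} ∧
        IsJoin G (m - T.card / 2) (A T) (p T)) →
      ∑ T ∈ C, coef O T * prodChi G (m - T.card / 2) (A T) (p T) ≤
        (-1) ^ m * ∑ σ ∈ flagComplex G, (-1) ^ σ.card / O σ) ∧
    (∀ T ∈ flagComplex G, Even T.card → 0 ≤ coef O T) ∧ coef O ∅ = 1 ∧
    ∀ e ∈ flagComplex G, e.card = 2 → coef O e = ((w e : ℚ) - 2) / (4 * w e) := by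
  classical
  have hH : Pool.Agent.Y131.KS.HSph (flagComplex G) (2 * m) := ⟨h2.1, h2.2.1, h2.2.2.1, h2.2.2.2⟩
  have hF : ∀ T ∈ flagComplex G, ∀ U ⊆ T, U ∈ flagComplex G := fun T hT U hU => h2.1.2 T hT U hU
  have hN := hO.good hF
  refine ⟨?_, fun T hT he => coefO_nonneg hN hT he, ?_, fun e he h => coef_edge hF hO he h⟩
  · intro hg C A p hC
    refine sum_le G (flagComplex G) (mem_flag G) hH hR hg O hN C A p ?_
    intro T hT
    obtain ⟨h6, h7, h8, h9⟩ := hC T hT
    exact ⟨(mem_flag G T).1 h6, h7, fun v hv t ht => h8 hv t ht, h9⟩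
  · simp [coef, hO.empty]

end Pool.Agent.Results.MP_375bfa_co.WeightedJoins
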