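import Pool.Agent.Q169.SP.Orders

/-!
# The flag complex inequality with Coxeter edge weights and coloured exceptional vertices

For flag homology spheres of dimension `2 m - 1` which satisfy a local colouring criterion, and for all systems of orders
`O σ` with the properties of the orders of finite Coxeter groups, the weighted quantity `(-1)^m ∑ (-1)^|σ| / O σ` is at
least the right-angled quantity `(-1)^m ∑ (-1/2)^|σ|`, which is nonnegative.
-/

set_option autoImplicit false

namespace Pool.Agent.Results.MP_375bfa_co.WeightedSign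

open Finset Pool.Agent.W907.SG Pool.Agent.W907.SM Pool.Agent.TH652.Above Pool.Agent.Q169.RC
open Pool.Agent.Q169.SP (flagComplex IsHomologySphere Colours Orders mem_flag)

/-- Let the flag complex of `G` be a homology sphere of dimension `2 m - 1` over the reals (`HSph (2 m) G`) and modulo
`2`, with weights `w` of the edges and orders `O`. If there is a set `B` of vertices, coloured with `m + 1` colours, such
that all simplices with a vertex outside `B` are good, then
`0 ≤ (-1)^m ∑ (-1/2)^|σ| ≤ (-1)^m ∑ (-1)^|σ| / O σ`. -/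
theorem result (m N : ℕ) (G : SimpleGraph (Fin N)) (hR : HSph (2 * m) G)
    (h2 : IsHomologySphere (flagComplex G) (2 * m)) (w : Finset (Fin N) → ℕ) (O : Finset (Fin N) → ℚ)
    (hO : Orders (flagComplex G) w O) (B : Set (Fin N)) (κ : Fin N → Fin (m + 1)) (hκ : Colours G B κ)
    (hB : ∀ v, v ∉ B → ∀ T : Finset (Fin N), v ∈ T → G.IsClique (T : Set (Fin N)) → Good (2 * m) G T) :
    0 ≤ (-1) ^ m * ∑ σ ∈ flagComplex G, (-1 / 2 : ℚ) ^ σ.card ∧
    (-1) ^ m * ∑ σ ∈ flagComplex G, (-1 / 2 : ℚ) ^ σ.card ≤
      (-1) ^ m * ∑ σ ∈ flagComplex G, (-1) ^ σ.card / O σ := by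
  classical
  have hH : Pool.Agent.Y131.KS.HSph (flagComplex G) (2 * m) := ⟨h2.1, h2.2.1, h2.2.2.1, h2.2.2.2⟩
  have hF : ∀ T ∈ flagComplex G, ∀ U ⊆ T, U ∈ flagComplex G := fun T hT U hU => h2.1.2 T hT U hU
  have hN := hO.good hF
  have h5 : chiW G = ∑ T ∈ flagComplex G, (-1 / 2 : ℚ) ^ T.card := by
    rw [count_eq G (flagComplex G) (mem_flag G)]
    unfold chiW
    refine sum_congr rfl fun T _ => ?_
    congr
  rw [← h5]
  exact weighted_ge G (flagComplex G) (mem_flag G) hH hR B κ hκ hB O hN hO.empty

end Pool.Agent.Results.MP_375bfa_co.WeightedSign
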